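import Pool.Agent.V5helper89.Hilb.Glue

/-!
# There are infinitely many elementary components of the Hilbert schemes of points of `𝔸³`

Let `k` be an algebraically closed field. Since the Hilbert scheme `Hilb_r(𝔸ⁿ)` is of finite type
over `k`, its irreducible components and their open subsets are determined by the space of its
closed points, with the Zariski topology. The closed points are the ideals of `k[x_1, …, x_n]` of
colength `r` (`HilbPt k n r`). The topology is the finest one for which the classifying maps
`Spec(A)(k) → Hilb_r(𝔸ⁿ)(k)` of all flat families over affine schemes `Spec A` with free direct image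
are continuous (`Family`, `Family.fibre`, `zariski`); this is the Zariski topology, because these
maps are morphisms of schemes, and the Hilbert scheme is covered by open affine subschemes over which
the universal family is free.

Proof. The closure of the set of ideals whose local components have length at most `R` has dimension
at most `c_R r`, because such an ideal is given by at most `r` blocks of commuting `R × R` matrices
with a vector. The ideals `I` with `m^{s+1} ⊂ I ⊂ m^s` form families of dimension at least a
constant times `s⁴`, with `r` at most a constant times `s³` (Iarrobino). So for suitable `r` there is a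
nonempty open set `W` of `Hilb_r(𝔸³)` which contains no ideal whose local components have length at
most `R`. If `r` is the smallest number with this property, then all elements of `W` are
supported at one point, since adding a fixed disjoint subscheme is continuous.
-/

set_option autoImplicit false

open MvPolynomial Topology Pool.Agent.V5helper89.Hilb

namespace Pool.Agent.Results.MP_5ec99c_ag.InfinitelyManyElementary

universe u

/-- `C` is an elementary irreducible component of the Hilbert scheme of `r` points of `𝔸ⁿ`: it is an
irreducible component, and for all points `I` in a nonempty open subset of `C` the subscheme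
`Spec (k[x_1, …, x_n] / I)` is irreducible. -/
def IsElementaryComponent {k : Type u} [Field k] {n r : ℕ} (C : Set (HilbPt k n r)) : Prop :=
  C ∈ irreducibleComponents (HilbPt k n r) ∧
    ∃ W : Set (HilbPt k n r), IsOpen W ∧ (C ∩ W).Nonempty ∧
      ∀ I ∈ C ∩ W, IrreducibleSpace (PrimeSpectrum (MvPolynomial (Fin n) k ⧸ I.1))

/-- For each `R` there are `r > R` and an elementary component of the Hilbert scheme of `r` points. -/
theorem exists_elementary (k : Type u) [Field k] [Infinite k] (R : ℕ) :
    ∃ r, R < r ∧ ∃ C : Set (HilbPt k 3 r), IsElementaryComponent C := by
  obtain ⟨r₀, W₀, hW₀, hne₀, hdec₀⟩ := exists_open_three k R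
  obtain ⟨r, W, hW, ⟨I, hI⟩, hdec, hirr⟩ := exists_irreducible_open R r₀ W₀ hW₀ hne₀ hdec₀
  refine ⟨r, ?_, irreducibleComponent I, irreducibleComponent_mem_irreducibleComponents I, W, hW,
    ⟨I, mem_irreducibleComponent, hI⟩, fun J hJ => hirr J hJ.2⟩
  by_contra hle
  refine hdec I hI (Dec.small _ I.2.1 ?_)
  rw [I.2.2]
  exact not_lt.1 hle

/-- **There are infinitely many elementary components of the Hilbert schemes of points of the affine
space of dimension three** over an algebraically closed field `k`, and they occur for
arbitrarily large numbers `r` of points. -/
theorem result (k : Type u) [Field k] [IsAlgClosed k] :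
    {x : Σ r : ℕ, Set (HilbPt k 3 r) | 1 ≤ x.1 ∧ IsElementaryComponent x.2}.Infinite ∧
      ∀ R : ℕ, ∃ r, R < r ∧ ∃ C : Set (HilbPt k 3 r), IsElementaryComponent C := by
  have hinf : Infinite k := IsAlgClosed.instInfinite
  refine ⟨?_, exists_elementary k⟩
  intro hfin
  obtain ⟨R, hR⟩ := (hfin.image Sigma.fst).bddAbove
  obtain ⟨r, hr, C, hC⟩ := exists_elementary k R
  have h1 : r ≤ R := hR ⟨⟨r, C⟩, ⟨by change 1 ≤ r; omega, hC⟩, rfl⟩
  omega

end Pool.Agent.Results.MP_5ec99c_ag.InfinitelyManyElementary
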